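import Mathlib

set_option autoImplicit false
set_option linter.unusedSectionVars false

namespace Pool.Agent.H.MP_208a82_co

open Set MeasureTheory Filter Topology Metric
open scoped Pointwise

section defs
variable {E : Type} [NormedAddCommGroup E] [NormedSpace ℝ E]

def IsPolytope (P : Set E) : Prop :=
  (∃ S : Set E, S.Finite ∧ P = convexHull ℝ S) ∧ affineSpan ℝ P = ⊤

def Ins (P Q : Set E) : Prop :=
  ∃ x, Q = convexHull ℝ (insert x P) ∧ Q.extremePoints ℝ = insert x (P.extremePoints ℝ)

def Del (P Q : Set E) : Prop :=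
  ∃ v ∈ P.extremePoints ℝ, Q = convexHull ℝ (P.extremePoints ℝ \ {v})

variable [MeasurableSpace E]

def Node (μ : Measure E) (I : Set ℝ) (P : Set E) : Prop := IsPolytope P ∧ (μ P).toReal ∈ I

def Move (μ : Measure E) (I : Set ℝ) (P Q : Set E) : Prop :=
  Node μ I P ∧ Node μ I Q ∧ (Ins P Q ∨ Del P Q)

end defs

variable {E : Type} [NormedAddCommGroup E] [InnerProductSpace ℝ E] [FiniteDimensional ℝ E]

def CP (S : Set E) : Prop := ∀ a ∈ S, ∃ f : E →L[ℝ] ℝ, ∀ b ∈ S, b ≠ a → f b < f a
def FD (S : Set E) : Prop := (interior (convexHull ℝ S)).Nonempty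

omit [FiniteDimensional ℝ E] in
lemma cvx (f : E →L[ℝ] ℝ) (b : E) : Convex ℝ {x | f x < f b ∨ x = b} := by
  intro x hx y hy s t hs ht hst
  simp only [mem_ofPred_eq, map_add, map_smul, smul_eq_mul] at *
  have hc : f b = s * f b + t * f b := by rw [← add_mul, hst, one_mul]
  rcases hx with hx | rfl <;> rcases hy with hy | rfl
  · left
    rcases hs.eq_or_lt with rfl | hs'
    · simp at hst; subst hst; simpa using hy
    · nlinarith [mul_nonneg ht (sub_pos.2 hy).le, mul_pos hs' (sub_pos.2 hx)]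
  · rcases hs.eq_or_lt with rfl | hs'
    · simp at hst; subst hst; simp
    · left; nlinarith [mul_pos hs' (sub_pos.2 hx)]
  · rcases ht.eq_or_lt with rfl | ht'
    · simp at hst; subst hst; simp
    · left; nlinarith [mul_pos ht' (sub_pos.2 hy)]
  · right; rw [← add_smul, hst, one_smul]

omit [FiniteDimensional ℝ E] in
lemma CP.ext_eq {S : Set E} (h : CP S) : (convexHull ℝ S).extremePoints ℝ = S := by
  refine Subset.antisymm extremePoints_convexHull_subset fun a ha => ?_
  obtain ⟨f, hf⟩ := h a ha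
  have hs : convexHull ℝ S ⊆ {x | f x < f a ∨ x = a} :=
    convexHull_min (fun b hb => (em (b = a)).elim Or.inr fun h => Or.inl (hf b hb h)) (cvx f a)
  rw [mem_extremePoints_iff_left]
  refine ⟨subset_convexHull ℝ S ha, fun x hx y hy ⟨s, t, hs', ht, hst, e⟩ => ?_⟩
  have h1 : s * f x + t * f y = f a := by rw [← e]; simp
  have hc : f a = s * f a + t * f a := by rw [← add_mul, hst, one_mul]
  have h2 : f y ≤ f a := (hs hy).elim le_of_lt fun h => by rw [h]
  rcases hs hx with h | h
  · nlinarith [mul_pos hs' (sub_pos.2 h), mul_nonneg ht.le (sub_nonneg.2 h2)]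
  · exact h

omit [FiniteDimensional ℝ E] in
lemma CP.mono {S T : Set E} (h : CP T) (hs : S ⊆ T) : CP S := fun a ha =>
  (h a (hs ha)).imp fun _ hf b hb => hf b (hs hb)

omit [FiniteDimensional ℝ E] in
lemma FD.mono {S T : Set E} (h : FD S) (hs : S ⊆ T) : FD T :=
  Set.Nonempty.mono (interior_mono (convexHull_mono hs)) h

lemma FD_iff {S : Set E} : FD S ↔ affineSpan ℝ (convexHull ℝ S) = ⊤ :=
  (convex_convexHull ℝ S).interior_nonempty_iff_affineSpan_eq_top

omit [FiniteDimensional ℝ E] in
lemma CP.notMem {S : Set E} {x : E} (h : CP (insert x S)) (hx : x ∉ S) : x ∉ convexHull ℝ S := by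
  obtain ⟨f, hf⟩ := h x (mem_insert _ _)
  intro h1
  have : x ∈ {y | f y < f x} := convexHull_min (fun b hb => hf b (mem_insert_of_mem _ hb)
    (fun e => hx (e ▸ hb))) (convex_halfSpace_lt f.isLinear _) h1
  exact lt_irrefl (f x) this

lemma CP_of {S : Set E} (hS : S.Finite) (h : ∀ a ∈ S, a ∉ convexHull ℝ (S \ {a})) : CP S := by
  intro a ha
  obtain ⟨f, u, h1, h2⟩ := geometric_hahn_banach_closed_point (convex_convexHull ℝ (S \ {a}))
    ((hS.subset sdiff_subset).isCompact_convexHull ℝ).isClosed (h a ha)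
  exact ⟨f, fun b hb hba => (h1 b (subset_convexHull ℝ _ ⟨hb, hba⟩)).trans h2⟩

variable {ι : Type} [Fintype ι]

def CPt (p : ι → E) : Prop := ∀ i, ∃ f : E →L[ℝ] ℝ, ∀ j, j ≠ i → f (p j) < f (p i)

omit [FiniteDimensional ℝ E] [Fintype ι] in
lemma CPt.cp {p : ι → E} (h : CPt p) : CP (range p) := by
  rintro _ ⟨i, rfl⟩
  obtain ⟨f, hf⟩ := h i
  refine ⟨f, ?_⟩
  rintro _ ⟨j, rfl⟩ hj
  exact hf j fun e => hj (by rw [e])

omit [FiniteDimensional ℝ E] in
lemma CPt.ev {p : ι → E} (h : CPt p) : ∀ᶠ q in 𝓝 p, CPt q := by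
  refine eventually_all.2 fun i => ?_
  obtain ⟨f, hf⟩ := h i
  have : ∀ᶠ q : ι → E in 𝓝 p, ∀ j, j ≠ i → f (q j) < f (q i) := by
    refine eventually_all.2 fun j => ?_
    by_cases hj : j = i
    · simp [hj]
    · have := (ContinuousAt.eventually_lt (f := fun q : ι → E => f (q j))
        (g := fun q : ι → E => f (q i)) (f.continuous.comp (continuous_apply j)).continuousAt
        (f.continuous.comp (continuous_apply i)).continuousAt (hf j hj))
      exact this.mono fun q hq _ => hq
  exact this.mono fun q hq => ⟨f, hq⟩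

lemma ball_sub {p q : ι → E} {x : E} {ρ : ℝ} (hρ : 0 < ρ)
    (h : ball x (2 * ρ) ⊆ convexHull ℝ (range p)) (hq : dist q p < ρ) :
    ball x ρ ⊆ convexHull ℝ (range q) := by
  intro y hy
  by_contra hn
  obtain ⟨f, u, h1, h2⟩ := geometric_hahn_banach_closed_point (convex_convexHull ℝ (range q))
    ((finite_range q).isCompact_convexHull ℝ).isClosed hn
  set w := (InnerProductSpace.toDual ℝ E).symm f
  have hw : ∀ z, f z = inner ℝ w z := fun z => by simp [w]
  have h3 : y + ρ • (‖w‖⁻¹ • w) ∈ ball x (2 * ρ) := by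
    rw [mem_ball, dist_eq_norm] at hy ⊢
    have : ‖ρ • (‖w‖⁻¹ • w)‖ ≤ ρ := by
      rw [norm_smul, norm_smul, norm_inv, norm_norm, Real.norm_of_nonneg hρ.le]
      exact mul_le_of_le_one_right hρ.le (inv_mul_le_one)
    calc ‖y + ρ • (‖w‖⁻¹ • w) - x‖ = ‖(y - x) + ρ • (‖w‖⁻¹ • w)‖ := by congr 1; abel
      _ ≤ _ := norm_add_le _ _
      _ < _ := by linarith
  have h4 : convexHull ℝ (range p) ⊆ {a | f a ≤ u + ρ * ‖w‖} := by
    refine convexHull_min ?_ (convex_halfSpace_le f.isLinear _)
    rintro _ ⟨i, rfl⟩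
    have a1 := h1 _ (subset_convexHull ℝ _ (mem_range_self i))
    have a2 : ‖p i - q i‖ ≤ ρ := by
      rw [← dist_eq_norm, dist_comm]; exact (dist_le_pi_dist q p i).trans hq.le
    have a3 : f (p i - q i) ≤ ‖w‖ * ‖p i - q i‖ := by rw [hw]; exact real_inner_le_norm _ _
    rw [map_sub] at a3
    simp only [mem_ofPred_eq]
    nlinarith [norm_nonneg w]
  have h5 := h4 (h h3)
  have h6 : f (‖w‖⁻¹ • w) = ‖w‖ := by
    rw [map_smul, hw, real_inner_self_eq_norm_sq, smul_eq_mul]
    by_cases h0 : ‖w‖ = 0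
    · simp [h0]
    · field_simp
  simp only [mem_ofPred_eq, map_add, map_smul f ρ, h6, smul_eq_mul] at h5
  linarith

lemma ev_int {p : ι → E} {x : E} (h : x ∈ interior (convexHull ℝ (range p))) :
    ∀ᶠ q in 𝓝 p, x ∈ interior (convexHull ℝ (range q)) := by
  obtain ⟨ε, hε, h1⟩ := Metric.mem_nhds_iff.1 (mem_interior_iff_mem_nhds.1 h)
  filter_upwards [ball_mem_nhds p (half_pos hε)] with q hq
  have := ball_sub (half_pos hε) (by rwa [mul_div_cancel₀ _ two_ne_zero]) hq
  exact mem_interior_iff_mem_nhds.2 (mem_of_superset (ball_mem_nhds x (half_pos hε)) this)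

lemma ev_ext {p : ι → E} {x : E} (h : x ∉ convexHull ℝ (range p)) :
    ∀ᶠ q in 𝓝 p, x ∉ convexHull ℝ (range q) := by
  obtain ⟨f, u, h1, h2⟩ := geometric_hahn_banach_closed_point (convex_convexHull ℝ (range p))
    ((finite_range p).isCompact_convexHull ℝ).isClosed h
  have : ∀ᶠ q : ι → E in 𝓝 p, ∀ j, f (q j) < u := eventually_all.2 fun j =>
    ContinuousAt.eventually_lt (f := fun q : ι → E => f (q j)) (g := fun _ => u)
      (f.continuous.comp (continuous_apply j)).continuousAt continuousAt_const (h1 _ (subset_convexHull ℝ _ (mem_range_self j)))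
  filter_upwards [this] with q hq hx
  have : x ∈ {a | f a < u} :=
    convexHull_min (by rintro _ ⟨j, rfl⟩; exact hq j) (convex_halfSpace_lt f.isLinear _) hx
  exact lt_asymm h2 this

variable [MeasurableSpace E] [BorelSpace E] (μ : Measure E) [μ.IsAddHaarMeasure]

noncomputable def vol (S : Set E) : ℝ := (μ (convexHull ℝ S)).toReal

lemma vol_cont : Continuous fun p : ι → E => vol μ (range p) := by
  refine continuous_iff_continuousAt.2 fun p => ?_
  have hc : ∀ q : ι → E, IsCompact (convexHull ℝ (range q)) := fun q =>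
    (finite_range q).isCompact_convexHull ℝ
  refine (ENNReal.tendsto_toReal (hc p).measure_lt_top.ne).comp ?_
  refine tendsto_measure_of_ae_tendsto_indicator (𝓝 p) (hc p).measurableSet
    (fun q => (hc q).measurableSet) (B := closedBall 0 (‖p‖ + 1)) measurableSet_closedBall
    measure_closedBall_lt_top.ne ?_ ?_
  · filter_upwards [ball_mem_nhds p one_pos] with q hq
    refine convexHull_min ?_ (convex_closedBall _ _)
    rintro _ ⟨i, rfl⟩
    rw [mem_closedBall_zero_iff]
    rw [mem_ball, dist_eq_norm] at hq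
    linarith [norm_le_pi_norm q i, norm_le_norm_add_norm_sub' q p]
  · have := (convex_convexHull ℝ (range p)).addHaar_frontier μ
    filter_upwards [measure_eq_zero_iff_ae_notMem.1 this] with x hx
    by_cases h : x ∈ convexHull ℝ (range p)
    · have h1 : x ∈ interior (convexHull ℝ (range p)) := by
        by_contra h2; exact hx ⟨subset_closure h, h2⟩
      filter_upwards [ev_int h1] with q hq
      exact ⟨fun _ => h, fun _ => interior_subset hq⟩
    · filter_upwards [ev_ext h] with q hq
      exact ⟨fun h1 => absurd h1 hq, fun h1 => absurd h1 h⟩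

lemma vol_pos {S : Set E} (hS : S.Finite) (h : FD S) : 0 < vol μ S :=
  ENNReal.toReal_pos (Measure.measure_pos_of_nonempty_interior μ h).ne'
    (hS.isCompact_convexHull ℝ).measure_lt_top.ne

lemma vol_lt {S T : Set E} (hT : T.Finite) (hST : S ⊆ T) (h : FD S) {x : E} (hxT : x ∈ T)
    (hx : x ∉ convexHull ℝ S) : vol μ S < vol μ T := by
  have hS := hT.subset hST
  have c1 := hS.isCompact_convexHull ℝ
  have c2 := hT.isCompact_convexHull ℝ
  refine (ENNReal.toReal_lt_toReal c1.measure_lt_top.ne c2.measure_lt_top.ne).2 ?_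
  have h1 : x ∈ closure (interior (convexHull ℝ T)) := by
    rw [(convex_convexHull ℝ T).closure_interior_eq_closure_of_nonempty_interior (h.mono hST)]
    exact subset_closure (subset_convexHull ℝ T hxT)
  have h2 := mem_closure_iff.1 h1 _ c1.isClosed.isOpen_compl hx
  have h3 : 0 < μ ((convexHull ℝ S)ᶜ ∩ interior (convexHull ℝ T)) :=
    (c1.isClosed.isOpen_compl.inter isOpen_interior).measure_pos μ h2
  calc μ (convexHull ℝ S) < μ (convexHull ℝ S) + μ ((convexHull ℝ S)ᶜ ∩ interior (convexHull ℝ T)) :=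
        ENNReal.lt_add_right c1.measure_lt_top.ne h3.ne'
    _ = μ (convexHull ℝ S ∪ (convexHull ℝ S)ᶜ ∩ interior (convexHull ℝ T)) :=
        (measure_union' (disjoint_compl_right.mono_right inter_subset_left) c1.measurableSet).symm
    _ ≤ _ := measure_mono (union_subset (convexHull_mono hST)
        (inter_subset_right.trans interior_subset))

lemma vol_aff (S : Set E) (b : E) {a : ℝ} (ha : 0 < a) :
    vol μ (b +ᵥ a • S) = a ^ Module.finrank ℝ E * vol μ S := by
  simp only [vol, convexHull_vadd, convexHull_smul, measure_vadd, Measure.addHaar_smul,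
    ENNReal.toReal_mul]
  rw [ENNReal.toReal_ofReal (abs_nonneg _), abs_of_pos (pow_pos ha _)]

lemma vol_smul (S : Set E) {a : ℝ} (ha : 0 < a) :
    vol μ (a • S) = a ^ Module.finrank ℝ E * vol μ S := by
  simpa using vol_aff μ S 0 ha

omit [FiniteDimensional ℝ E] [MeasurableSpace E] [BorelSpace E] in
lemma FD.aff {S : Set E} (h : FD S) (b : E) {a : ℝ} (ha : 0 < a) : FD (b +ᵥ a • S) := by
  simp only [FD, convexHull_vadd, convexHull_smul, interior_vadd, interior_smul₀ ha.ne']
  simpa [FD] using h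

omit [FiniteDimensional ℝ E] [MeasurableSpace E] [BorelSpace E] in
lemma CP.tup {S : Set E} (h : CP S) (b : E) {a : ℝ} (ha : 0 < a) :
    CPt fun i : S => b + a • i.1 := by
  intro i
  obtain ⟨f, hf⟩ := h i.1 i.2
  refine ⟨f, fun j hj => ?_⟩
  have := hf j.1 j.2 fun e => hj (Subtype.ext e)
  simp only [map_add, map_smul, smul_eq_mul]
  nlinarith

omit [FiniteDimensional ℝ E] [MeasurableSpace E] [BorelSpace E] in
lemma range_tup (S : Set E) (b : E) (a : ℝ) : (range fun i : S => b + a • i.1) = b +ᵥ a • S := by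
  ext x
  simp only [mem_range, Subtype.exists, exists_prop, mem_vadd_set, mem_smul_set, vadd_eq_add]
  constructor
  · rintro ⟨y, hy, rfl⟩; exact ⟨_, ⟨y, hy, rfl⟩, rfl⟩
  · rintro ⟨_, ⟨y, hy, rfl⟩, rfl⟩; exact ⟨y, hy, rfl⟩

omit [MeasurableSpace E] [BorelSpace E] in
lemma ex_w (hd : 2 ≤ Module.finrank ℝ E) {r : ι → E} (h : CPt r) (i : ι) :
    ∃ u : E, ∀ᶠ s : ℝ in 𝓝[>] 0, CPt fun o : Option ι => o.elim (r i + s • u) r := by
  obtain ⟨f, hf⟩ := h i
  obtain ⟨u, hu0, hu⟩ : ∃ u : E, u ≠ 0 ∧ f u = 0 := by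
    by_contra hn
    push Not at hn
    have : Function.Injective f.toLinearMap := by
      rw [← LinearMap.ker_eq_bot, LinearMap.ker_eq_bot']
      intro m hm; by_contra h0; exact hn m h0 hm
    have := LinearMap.finrank_le_finrank_of_injective this
    simp at this; omega
  set g : E →L[ℝ] ℝ := innerSL ℝ u
  have hg : 0 < g u := by simp [g, hu0]
  have h1 : ∀ c : ℝ, ∀ᶠ ε : ℝ in 𝓝[>] 0, ∀ j, j ≠ i →
      f (r j) + c * ε * g (r j) < f (r i) + c * ε * g (r i) := by
    intro c
    refine mem_nhdsWithin_of_mem_nhds (eventually_all.2 fun j => ?_)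
    by_cases hj : j = i
    · simp [hj]
    · have := (ContinuousAt.eventually_lt (f := fun ε : ℝ => f (r j) + c * ε * g (r j)) (x₀ := 0)
        (g := fun ε : ℝ => f (r i) + c * ε * g (r i)) (by fun_prop) (by fun_prop)
        (by simpa using hf j hj))
      exact this.mono fun q hq _ => hq
  obtain ⟨ε, ⟨e1, e2⟩, e0⟩ := (((h1 1).and (h1 (-1))).and self_mem_nhdsWithin).exists
  have e0 : 0 < ε := e0
  choose F hF using h
  have h2 : ∀ᶠ s : ℝ in 𝓝[>] 0, ∀ j, j ≠ i → F j (r i + s • u) < F j (r j) := by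
    refine mem_nhdsWithin_of_mem_nhds (eventually_all.2 fun j => ?_)
    by_cases hj : j = i
    · simp [hj]
    · have := (ContinuousAt.eventually_lt (f := fun s : ℝ => F j (r i + s • u)) (x₀ := 0)
        (g := fun _ : ℝ => F j (r j)) (by fun_prop) (by fun_prop)
        (by simpa using hF j i (Ne.symm hj)))
      exact this.mono fun q hq _ => hq
  refine ⟨u, ?_⟩
  filter_upwards [h2, self_mem_nhdsWithin] with s hs s0
  have s0 : 0 < s := s0
  have k : 0 < ε * (s * g u) := by positivity
  rintro (_ | j)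
  · refine ⟨f + ε • g, ?_⟩
    rintro (_ | k) hk
    · exact absurd rfl hk
    · simp only [Option.elim, add_apply, smul_apply,
        map_add, map_smul, smul_eq_mul, hu]
      by_cases hki : k = i
      · subst hki; nlinarith
      · have := e1 k hki; nlinarith
  · by_cases hj : j = i
    · subst hj
      refine ⟨f - ε • g, ?_⟩
      rintro (_ | k) hk
      · simp only [Option.elim, sub_apply, smul_apply,
          map_add, map_smul, smul_eq_mul, hu]
        nlinarith
      · simp only [Option.elim, sub_apply, smul_apply,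
          smul_eq_mul]
        have := e2 k (fun e => hk (by rw [e])); nlinarith
    · refine ⟨F j, ?_⟩
      rintro (_ | k) hk
      · exact hs j hj
      · exact hF j k fun e => hk (by rw [e])

end Pool.Agent.H.MP_208a82_co
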