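import Pool.Agent.H.MP_208a82_co.A

set_option autoImplicit false
set_option linter.unusedSectionVars false

namespace Pool.Agent.H.MP_208a82_co

open Set MeasureTheory Filter Topology Metric Relation Function
open scoped Pointwise

variable {E : Type} [NormedAddCommGroup E] [InnerProductSpace ℝ E] [FiniteDimensional ℝ E]
  [MeasurableSpace E] [BorelSpace E] (μ : Measure E) [μ.IsAddHaarMeasure] (I : Set ℝ)

def K (S T : Set E) : Prop :=
  ReflTransGen (Move μ I) (convexHull ℝ S) (convexHull ℝ T) ∧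
    ReflTransGen (Move μ I) (convexHull ℝ T) (convexHull ℝ S)

variable {μ I}

lemma K.rfl' (S : Set E) : K μ I S S := ⟨.refl, .refl⟩
lemma K.symm {S T : Set E} (h : K μ I S T) : K μ I T S := ⟨h.2, h.1⟩
lemma K.trans {S T R : Set E} (h : K μ I S T) (h' : K μ I T R) : K μ I S R :=
  ⟨h.1.trans h'.1, h'.2.trans h.2⟩

lemma node {S : Set E} (hS : S.Finite) (h : FD S) (hv : vol μ S ∈ I) :
    Node μ I (convexHull ℝ S) := ⟨⟨⟨S, hS, rfl⟩, FD_iff.1 h⟩, hv⟩

lemma ins {S : Set E} {x : E} (hS : S.Finite) (h : FD S) (hc : CP (insert x S))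
    (h1 : vol μ S ∈ I) (h2 : vol μ (insert x S) ∈ I) : K μ I S (insert x S) := by
  by_cases hx : x ∈ S
  · rw [insert_eq_of_mem hx]; exact K.rfl' S
  have n1 := node hS h h1
  have n2 := node (hS.insert x) (h.mono (subset_insert _ _)) h2
  refine ⟨.single ⟨n1, n2, Or.inl ⟨x, ?_, ?_⟩⟩, .single ⟨n2, n1, Or.inr ⟨x, ?_, ?_⟩⟩⟩
  · rw [insert_eq, insert_eq, convexHull_convexHull_union_right]
  · rw [hc.ext_eq, (hc.mono (subset_insert _ _)).ext_eq]
  · rw [hc.ext_eq]; exact mem_insert _ _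
  · rw [hc.ext_eq, insert_sdiff_self_of_notMem hx]

def JJ (I : Set ℝ) : Set ℝ := {y | ∃ a ∈ I, ∃ b ∈ I, a < y ∧ y < b}

lemma JJ_open : IsOpen (JJ I) := by
  refine isOpen_iff_mem_nhds.2 fun y ⟨a, ha, b, hb, h1, h2⟩ => ?_
  exact mem_of_superset (Ioo_mem_nhds h1 h2) fun z hz => ⟨a, ha, b, hb, hz.1, hz.2⟩

lemma JJ_sub (hI : I.OrdConnected) : JJ I ⊆ I := fun _ ⟨_, ha, _, hb, h1, h2⟩ =>
  hI.out ha hb ⟨h1.le, h2.le⟩

lemma JJ_oc {x y z : ℝ} (hx : x ∈ JJ I) (hz : z ∈ JJ I) (h1 : x ≤ y) (h2 : y ≤ z) : y ∈ JJ I := by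
  obtain ⟨a, ha, -, -, h3, -⟩ := hx
  obtain ⟨-, -, b, hb, -, h4⟩ := hz
  exact ⟨a, ha, b, hb, by linarith, by linarith⟩

variable {ι : Type} [Fintype ι] [DecidableEq ι]

variable (μ I) in
def U (p : ι → E) : Prop := CPt p ∧ FD (range p) ∧ vol μ (range p) ∈ JJ I

lemma U.ev {p : ι → E} (h : U μ I p) : ∀ᶠ q in 𝓝 p, U μ I q := by
  obtain ⟨x, hx⟩ := h.2.1
  filter_upwards [h.1.ev, ev_int hx, (vol_cont μ).continuousAt.eventually (JJ_open.mem_nhds h.2.2)]
    with q h1 h2 h3 using ⟨h1, ⟨x, h2⟩, h3⟩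

def ext (r : ι → E) (w : E) : Option ι → E := fun o => o.elim w r

lemma range_ext (r : ι → E) (w : E) : range (ext r w) = insert w (range r) := by
  ext x; simp [ext, Option.exists, eq_comm]

lemma ext_cont {X : Type} [TopologicalSpace X] {r : X → ι → E} {w : X → E} (hr : Continuous r)
    (hw : Continuous w) : Continuous fun x => ext (r x) (w x) := by
  refine continuous_pi fun o => ?_
  cases o with
  | none => exact hw
  | some i => exact (continuous_apply i).comp hr

lemma swap (hI : I.OrdConnected) {r : ι → E} {i : ι} {w : E} (h1 : U μ I r)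
    (h2 : U μ I (update r i w)) (h3 : U μ I (ext r w)) :
    K μ I (range r) (range (update r i w)) := by
  have e : insert (r i) (range (update r i w)) = insert w (range r) := by
    ext x
    simp only [mem_insert_iff, mem_range]
    constructor
    · rintro (rfl | ⟨j, rfl⟩)
      · exact Or.inr ⟨i, rfl⟩
      · by_cases hj : j = i
        · subst hj; simp
        · right; exact ⟨j, by simp [hj]⟩
    · rintro (rfl | ⟨j, rfl⟩)
      · exact Or.inr ⟨i, by simp⟩
      · by_cases hj : j = i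
        · subst hj; simp
        · right; exact ⟨j, by simp [hj]⟩
  have c := h3.1.cp
  have v := JJ_sub hI h3.2.2
  rw [range_ext] at c v
  refine (ins (finite_range _) h1.2.1 c (JJ_sub hI h1.2.2) v).trans ?_
  rw [← e] at c v ⊢
  exact (ins (finite_range _) h2.2.1 c (JJ_sub hI h2.2.2) v).symm

lemma loc1 (hd : 2 ≤ Module.finrank ℝ E) (hI : I.OrdConnected) {r : ι → E} (h : U μ I r) (i : ι) :
    ∀ᶠ x in 𝓝 (r i), K μ I (range r) (range (update r i x)) := by
  obtain ⟨u, hu⟩ := ex_w hd h.1 i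
  have t0 : Tendsto (fun s : ℝ => r i + s • u) (𝓝[>] 0) (𝓝 (r i)) := by
    have : Continuous fun s : ℝ => r i + s • u := by fun_prop
    simpa using (this.tendsto 0).mono_left nhdsWithin_le_nhds
  have t1 : Tendsto (fun x => update r i x) (𝓝 (r i)) (𝓝 r) := by
    have : Continuous fun x => update r i x := continuous_const.update i continuous_id
    simpa using this.tendsto (r i)
  have t2 : Tendsto (fun x => vol μ (range (ext r x))) (𝓝 (r i)) (𝓝 (vol μ (range r))) := by
    have := ((vol_cont μ).comp (ext_cont (r := fun _ => r) continuous_const continuous_id)).tendsto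
      (r i)
    simp only [comp, id] at this
    rwa [range_ext r (r i), insert_eq_of_mem (mem_range_self i)] at this
  obtain ⟨s, ⟨a1, a2⟩, a3⟩ := ((hu.and ((t1.comp t0).eventually h.ev)).and
    ((t2.comp t0).eventually (JJ_open.mem_nhds h.2.2))).exists
  set w := r i + s • u
  have a4 : U μ I (ext r w) :=
    ⟨a1, by rw [range_ext]; exact h.2.1.mono (subset_insert _ _), a3⟩
  have t3 : Tendsto (fun x => ext (update r i x) w) (𝓝 (r i)) (𝓝 (ext r w)) := by
    have := (ext_cont (r := fun x => update r i x) (w := fun _ => w)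
      (continuous_const.update i continuous_id) continuous_const).tendsto (r i)
    simpa using this
  filter_upwards [t1.eventually h.ev, t3.eventually a4.ev] with x b1 b2
  have k1 := swap hI h a2 a4
  have k2 := swap hI (i := i) b1 (by rw [update_idem]; exact a2) b2
  rw [update_idem] at k2
  exact k1.trans k2.symm

lemma loc (hd : 2 ≤ Module.finrank ℝ E) (hI : I.OrdConnected) {p : ι → E} (h : U μ I p) :
    ∀ᶠ q in 𝓝 p, K μ I (range p) (range q) := by
  obtain ⟨δ, hδ, hb⟩ := Metric.mem_nhds_iff.1 h.ev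
  filter_upwards [ball_mem_nhds p hδ] with q hq
  have hp : ∀ s : Finset ι, ∀ j, dist (s.piecewise q p j) (p j) < δ := by
    intro s j
    by_cases hj : j ∈ s
    · rw [s.piecewise_eq_of_mem _ _ hj]; exact (dist_le_pi_dist q p j).trans_lt hq
    · rw [s.piecewise_eq_of_notMem _ _ hj]; simpa using hδ
  have : ∀ s : Finset ι, K μ I (range p) (range (s.piecewise q p)) := by
    intro s
    induction s using Finset.induction_on with
    | empty => simpa using K.rfl' _
    | insert i s hi ih =>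
      refine ih.trans ?_
      rw [Finset.piecewise_insert]
      set r := s.piecewise q p
      have hU : ∀ x ∈ ball (p i) δ, U μ I (update r i x) := by
        intro x hx
        refine hb ((dist_pi_lt_iff hδ).2 fun j => ?_)
        by_cases hj : j = i
        · subst hj; simpa using hx
        · rw [update_of_ne hj]; exact hp s j
      have := (convex_ball (p i) δ).isPreconnected.induction₂'
        (fun x y => K μ I (range (update r i x)) (range (update r i y))) (fun x hx => by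
          have := loc1 hd hI (hU x hx) i
          simp only [update_self, update_idem] at this
          exact mem_nhdsWithin_of_mem_nhds (this.mono fun y hy => ⟨hy, hy.symm⟩))
        (fun x y z _ _ _ h1 h2 => h1.trans h2) (x := r i) (y := q i) (hp s i)
        ((dist_le_pi_dist q p i).trans_lt hq)
      simpa using this
  simpa using this Finset.univ

lemma path (hd : 2 ≤ Module.finrank ℝ E) (hI : I.OrdConnected) {T : Set ℝ} (hT : IsPreconnected T)
    {γ : ℝ → ι → E} (hγ : Continuous γ) (h : ∀ t ∈ T, U μ I (γ t)) {a b : ℝ} (ha : a ∈ T)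
    (hb : b ∈ T) : K μ I (range (γ a)) (range (γ b)) :=
  hT.induction₂' (fun x y => K μ I (range (γ x)) (range (γ y))) (fun x hx =>
    mem_nhdsWithin_of_mem_nhds ((hγ.continuousAt.eventually (loc hd hI (h x hx))).mono
      fun _ hy => ⟨hy, hy.symm⟩)) (fun _ _ _ _ _ _ h1 h2 => h1.trans h2) ha hb

def G0 (S : Set E) : Prop := S.Finite ∧ CP S ∧ FD S

lemma G0.aff {S : Set E} (h : G0 S) (b : E) {a : ℝ} (ha : 0 < a) : G0 (b +ᵥ a • S) :=
  ⟨h.1.smul_set.vadd_set, by rw [← range_tup]; exact (h.2.1.tup b ha).cp, h.2.2.aff b ha⟩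

lemma scale (hd : 2 ≤ Module.finrank ℝ E) (hI : I.OrdConnected) {S : Set E} (h : G0 S) {a b : ℝ}
    (ha : 0 < a) (hb : 0 < b) (h1 : vol μ (a • S) ∈ JJ I) (h2 : vol μ (b • S) ∈ JJ I) :
    K μ I (a • S) (b • S) := by
  classical
  wlog hab : a ≤ b generalizing a b
  · exact (this hb ha h2 h1 (le_of_not_ge hab)).symm
  have := h.1.fintype
  have hv := vol_pos μ h.1 h.2.2
  have := path (μ := μ) hd hI (isPreconnected_Icc (a := a) (b := b))
    (γ := fun t (i : S) => (0 : E) + t • i.1) (by fun_prop) (fun t ht => by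
      have t0 : 0 < t := ha.trans_le ht.1
      refine ⟨h.2.1.tup 0 t0, by rw [range_tup]; exact h.2.2.aff 0 t0, ?_⟩
      rw [range_tup, zero_vadd]
      refine JJ_oc h1 h2 ?_ ?_
      · rw [vol_smul μ S ha, vol_smul μ S t0]; gcongr; exact ht.1
      · rw [vol_smul μ S hb, vol_smul μ S t0]; gcongr; exact ht.2)
    (left_mem_Icc.2 hab) (right_mem_Icc.2 hab)
  simpa only [range_tup, zero_vadd] using this

variable (μ I) in
def Sh (S T : Set E) : Prop := ∃ a > (0 : ℝ), ∃ b > (0 : ℝ), vol μ (a • S) ∈ JJ I ∧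
  vol μ (b • T) ∈ JJ I ∧ K μ I (a • S) (b • T)

lemma ex_sc (hd : 2 ≤ Module.finrank ℝ E) {S : Set E} (h : S.Finite) (h' : FD S) {m : ℝ}
    (hm : 0 < m) : ∃ a > (0 : ℝ), vol μ (a • S) = m := by
  have hv := vol_pos μ h h'
  have h0 : 0 < m / vol μ S := div_pos hm hv
  refine ⟨(m / vol μ S) ^ ((Module.finrank ℝ E : ℝ)⁻¹), Real.rpow_pos_of_pos h0 _, ?_⟩
  rw [vol_smul μ S (Real.rpow_pos_of_pos h0 _), Real.rpow_inv_natCast_pow h0.le (by omega)]
  field_simp

structure Hyp (E : Type) [NormedAddCommGroup E] [InnerProductSpace ℝ E] (I : Set ℝ) : Prop where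
  hd : 2 ≤ Module.finrank ℝ E
  hI : I.OrdConnected
  hm : ∃ m > (0 : ℝ), m ∈ JJ I

lemma Sh.symm {S T : Set E} (h : Sh μ I S T) : Sh μ I T S := by
  obtain ⟨a, ha, b, hb, h1, h2, h3⟩ := h
  exact ⟨b, hb, a, ha, h2, h1, h3.symm⟩

lemma Sh.trans (H : Hyp E I) {S T R : Set E} (hT : G0 T) (h : Sh μ I S T) (h' : Sh μ I T R) :
    Sh μ I S R := by
  obtain ⟨a, ha, b, hb, h1, h2, h3⟩ := h
  obtain ⟨c, hc, d, hd, h4, h5, h6⟩ := h'
  exact ⟨a, ha, d, hd, h1, h5, h3.trans ((scale H.hd H.hI hT hb hc h2 h4).trans h6)⟩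

lemma ex_sc' (H : Hyp E I) {S : Set E} (h : S.Finite) (h' : FD S) :
    ∃ a > (0 : ℝ), vol μ (a • S) ∈ JJ I := by
  obtain ⟨m, hm, h1⟩ := H.hm
  obtain ⟨a, ha, h2⟩ := ex_sc (μ := μ) H.hd h h' hm
  exact ⟨a, ha, h2 ▸ h1⟩

lemma range_sm (p : ι → E) (a : ℝ) : range (a • p) = a • range p := by
  ext x; simp [mem_smul_set]

lemma CPt.smul {p : ι → E} (h : CPt p) {a : ℝ} (ha : 0 < a) : CPt (a • p) := by
  intro i
  obtain ⟨f, hf⟩ := h i
  refine ⟨f, fun j hj => ?_⟩
  simp only [Pi.smul_apply, map_smul, smul_eq_mul]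
  exact mul_lt_mul_of_pos_left (hf j hj) ha

lemma sh_path (H : Hyp E I) {T : Set ℝ} (hT : IsPreconnected T) {γ : ℝ → ι → E}
    (hγ : Continuous γ) (h : ∀ t ∈ T, CPt (γ t) ∧ FD (range (γ t))) {a b : ℝ} (ha : a ∈ T)
    (hb : b ∈ T) : Sh μ I (range (γ a)) (range (γ b)) := by
  refine hT.induction₂' (fun x y => Sh μ I (range (γ x)) (range (γ y))) (fun x hx => ?_)
    (fun _ y _ _ hy _ h1 h2 => Sh.trans H ⟨finite_range _, (h y hy).1.cp, (h y hy).2⟩ h1 h2) ha hb
  obtain ⟨c, hc, h1⟩ := ex_sc' (μ := μ) H (finite_range _) (h x hx).2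
  have hU : U μ I (c • γ x) := ⟨(h x hx).1.smul hc, by
    rw [range_sm]; simpa using (h x hx).2.aff 0 hc, by rwa [range_sm]⟩
  have hc' : Continuous fun t => c • γ t := by fun_prop
  refine mem_nhdsWithin_of_mem_nhds ?_
  filter_upwards [hc'.continuousAt.eventually (loc H.hd H.hI hU),
    hc'.continuousAt.eventually hU.ev] with y h2 h3
  have h4 := h3.2.2
  rw [range_sm] at h4
  rw [range_sm, range_sm] at h2
  have : Sh μ I (range (γ x)) (range (γ y)) := ⟨c, hc, c, hc, h1, h4, h2⟩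
  exact ⟨this, this.symm⟩

lemma Sh.rfl' (H : Hyp E I) {S : Set E} (h : G0 S) : Sh μ I S S := by
  obtain ⟨c, hc, h1⟩ := ex_sc' (μ := μ) H h.1 h.2.2
  exact ⟨c, hc, c, hc, h1, h1, K.rfl' _⟩

lemma sh_ins (H : Hyp E I) {S : Set E} {x : E} (h : G0 S) (hc : CP (insert x S)) :
    Sh μ I S (insert x S) := by
  classical
  by_cases hx : x ∈ S
  · rw [insert_eq_of_mem hx]; exact Sh.rfl' H h
  have := h.1.fintype
  have hne : S.Nonempty := by
    obtain ⟨y, hy⟩ := h.2.2
    exact convexHull_nonempty_iff.1 ⟨y, interior_subset hy⟩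
  obtain ⟨f, hf⟩ := hc x (mem_insert _ _)
  obtain ⟨c, hcS, hcm⟩ := S.exists_max_image f h.1 hne
  have hcx : f c < f x := hf c (mem_insert_of_mem _ hcS) fun e => hx (e ▸ hcS)
  set γ : ℝ → Option S → E := fun t => ext Subtype.val (c + t • (x - c))
  have hγ : Continuous γ := ext_cont continuous_const (by fun_prop)
  have hr : ∀ t, range (γ t) = insert (c + t • (x - c)) S := fun t => by
    simp only [γ, range_ext, Subtype.range_coe]
  have hU : ∀ t ∈ Ioc (0 : ℝ) 1, CPt (γ t) ∧ FD (range (γ t)) := by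
    intro t ht
    refine ⟨?_, by rw [hr]; exact h.2.2.mono (subset_insert _ _)⟩
    rintro (_ | i)
    · refine ⟨f, ?_⟩
      rintro (_ | j) hj
      · exact absurd rfl hj
      · simp only [γ, ext, Option.elim, map_add, map_smul, map_sub, smul_eq_mul]
        nlinarith [hcm j.1 j.2, mul_pos ht.1 (sub_pos.2 hcx)]
    · obtain ⟨g, hg⟩ := hc i.1 (mem_insert_of_mem _ i.2)
      refine ⟨g, ?_⟩
      rintro (_ | j) hj
      · simp only [γ, ext, Option.elim, map_add, map_smul, map_sub, smul_eq_mul]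
        have a1 := hg x (mem_insert _ _) fun e => hx (e ▸ i.2)
        have a2 : g c ≤ g i.1 := by
          by_cases e : c = i.1
          · rw [e]
          · exact (hg c (mem_insert_of_mem _ hcS) e).le
        nlinarith [mul_pos ht.1 (sub_pos.2 a1), mul_nonneg (sub_nonneg.2 ht.2) (sub_nonneg.2 a2)]
      · exact hg j.1 (mem_insert_of_mem _ j.2) fun e => hj (by rw [Subtype.ext e])
  obtain ⟨a, ha, h1⟩ := ex_sc' (μ := μ) H h.1 h.2.2
  have t1 : Tendsto (fun t => vol μ (range (a • γ t))) (𝓝[>] 0) (𝓝 (vol μ (a • S))) := by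
    have := ((vol_cont μ).comp (by fun_prop : Continuous fun t => a • γ t)).tendsto 0
    simp only [comp] at this
    rw [range_sm (γ 0), hr, zero_smul, add_zero, insert_eq_of_mem hcS] at this
    exact this.mono_left nhdsWithin_le_nhds
  obtain ⟨t, h2, h3⟩ := ((t1.eventually (JJ_open.mem_nhds h1)).and
    (Ioc_mem_nhdsGT (zero_lt_one' ℝ))).exists
  have h4 := sh_path (μ := μ) H isPreconnected_Ioc hγ hU h3 (right_mem_Ioc.2 zero_lt_one)
  rw [hr 1, one_smul, add_sub_cancel] at h4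
  refine Sh.trans H ⟨finite_range _, (hU t h3).1.cp, (hU t h3).2⟩ ?_ h4
  rw [range_sm] at h2
  refine ⟨a, ha, a, ha, h1, h2, ?_⟩
  have h5 := ((hU t h3).1.smul ha).cp
  rw [range_sm] at h5
  rw [hr, smul_set_insert] at h2 h5 ⊢
  exact ins h.1.smul_set (by simpa using h.2.2.aff 0 ha) h5 (JJ_sub H.hI h1) (JJ_sub H.hI h2)

lemma sh_sub (H : Hyp E I) {B V : Set E} (hV : G0 V) (hB : B ⊆ V) (h : FD B) : Sh μ I B V := by
  have g : ∀ D ⊆ V, G0 (B ∪ D) := fun D hD =>
    ⟨hV.1.subset (union_subset hB hD), hV.2.1.mono (union_subset hB hD), h.mono subset_union_left⟩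
  have : ∀ D : Set E, D.Finite → D ⊆ V → Sh μ I B (B ∪ D) := by
    intro D hD
    induction D, hD using Set.Finite.induction_on with
    | empty => intro _; simpa using Sh.rfl' H (by simpa using g ∅ (empty_subset _))
    | @insert a D _ _ ih =>
      intro h1
      have h2 := (subset_insert _ _).trans h1
      refine Sh.trans H (g D h2) (ih h2) ?_
      have := (g _ h1).2.1
      rw [union_insert] at this ⊢
      exact sh_ins H (g D h2) this
  simpa [union_eq_self_of_subset_left hB] using this V hV.1 Subset.rfl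

lemma sh_aff (H : Hyp E I) {S : Set E} (h : G0 S) (b : E) {a : ℝ} (ha : 0 < a) :
    Sh μ I S (b +ᵥ a • S) := by
  classical
  have := h.1.fintype
  have := sh_path (μ := μ) H (isPreconnected_Icc (a := 0) (b := 1))
    (γ := fun t (i : S) => t • b + (1 - t + t * a) • i.1) (by fun_prop) (fun t ht => by
      have t0 : 0 < 1 - t + t * a := by
        rcases ht.1.eq_or_lt with rfl | h0
        · simp
        · nlinarith [ht.2, mul_pos h0 ha]
      exact ⟨h.2.1.tup _ t0, by rw [range_tup]; exact h.2.2.aff _ t0⟩)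
    (left_mem_Icc.2 zero_le_one) (right_mem_Icc.2 zero_le_one)
  simp only [range_tup] at this
  simpa using this

lemma CP_sph : CP (sphere (0 : E) 1) := by
  intro a ha
  refine ⟨innerSL ℝ a, fun b hb hne => ?_⟩
  rw [mem_sphere_zero_iff_norm] at ha hb
  simp only [innerSL_apply_apply, real_inner_self_eq_norm_sq, ha, one_pow]
  exact (inner_lt_one_iff_real_of_norm_eq_one ha hb).2 hne.symm

lemma sh_sph (H : Hyp E I) {S : Set E} (h : G0 S) :
    ∃ T, G0 T ∧ T ⊆ sphere 0 1 ∧ Sh μ I S T := by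
  obtain ⟨B, hB, h1, h2⟩ := exists_affineIndependent ℝ E S
  have hF : FD B := by
    rw [FD_iff, affineSpan_convexHull, h1, ← affineSpan_convexHull]; exact FD_iff.1 h.2.2
  have gB : G0 B := ⟨h.1.subset hB, h.2.1.mono hB, hF⟩
  have := gB.1.to_subtype
  have : Nonempty B := by
    obtain ⟨y, hy⟩ := hF
    exact (convexHull_nonempty_iff.1 ⟨y, interior_subset hy⟩).to_subtype
  obtain ⟨⟨c, r⟩, ⟨-, h3⟩, -⟩ := h2.existsUnique_dist_eq
  have h4 : ∀ x ∈ B, ‖x - c‖ = r := fun x hx => by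
    have := h3 (mem_range_self ⟨x, hx⟩)
    simpa [EuclideanGeometry.mem_sphere, dist_eq_norm] using this
  have hr : 0 < r := by
    by_contra hn
    have h5 : B ⊆ {c} := fun x hx => by
      have := h4 x hx
      have h6 : ‖x - c‖ = 0 := le_antisymm (by linarith) (norm_nonneg _)
      simpa [sub_eq_zero] using h6
    have h6 := hF.mono h5
    have : Nontrivial E := Module.nontrivial_of_finrank_pos (R := ℝ) (by have := H.hd; omega)
    simp [FD] at h6
  refine ⟨(-(r⁻¹ • c)) +ᵥ r⁻¹ • B, gB.aff _ (inv_pos.2 hr), ?_,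
    Sh.trans H gB (sh_sub H h hB hF).symm (sh_aff H gB _ (inv_pos.2 hr))⟩
  rintro _ ⟨_, ⟨x, hx, rfl⟩, rfl⟩
  simp only [vadd_eq_add, mem_sphere_zero_iff_norm]
  rw [neg_add_eq_sub, ← smul_sub, norm_smul, h4 x hx, Real.norm_of_nonneg (inv_pos.2 hr).le]
  field_simp

lemma sh_all (H : Hyp E I) {S T : Set E} (h : G0 S) (h' : G0 T) : Sh μ I S T := by
  obtain ⟨A, a1, a2, a3⟩ := sh_sph (μ := μ) H h
  obtain ⟨B, b1, b2, b3⟩ := sh_sph (μ := μ) H h'
  have g : G0 (A ∪ B) :=
    ⟨a1.1.union b1.1, CP_sph.mono (union_subset a2 b2), a1.2.2.mono subset_union_left⟩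
  exact Sh.trans H a1 a3 (Sh.trans H g (sh_sub H g subset_union_left a1.2.2)
    (Sh.trans H b1 (sh_sub H g subset_union_right b1.2.2).symm b3.symm))

lemma k_all (H : Hyp E I) {S T : Set E} (h : G0 S) (h' : G0 T) (h1 : vol μ S ∈ JJ I)
    (h2 : vol μ T ∈ JJ I) : K μ I S T := by
  obtain ⟨a, ha, b, hb, c1, c2, c3⟩ := sh_all (μ := μ) H h h'
  have k1 := scale H.hd H.hI h one_pos ha (by rwa [one_smul]) c1
  have k2 := scale H.hd H.hI h' hb one_pos c2 (by rwa [one_smul])
  rw [one_smul] at k1 k2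
  exact k1.trans (c3.trans k2)

lemma push (H : Hyp E I) (hm : ¬ ∃ M, IsGreatest I M) {S : Set E} (h : G0 S) (h1 : vol μ S ∈ I) :
    ∃ T, G0 T ∧ vol μ T ∈ JJ I ∧ K μ I S T := by
  classical
  obtain ⟨b, hb, hlt⟩ : ∃ b ∈ I, vol μ S < b := by
    by_contra hn
    push Not at hn
    exact hm ⟨_, h1, hn⟩
  have := h.1.fintype
  obtain ⟨y, hy⟩ : S.Nonempty := by
    obtain ⟨y, hy⟩ := h.2.2
    exact convexHull_nonempty_iff.1 ⟨y, interior_subset hy⟩
  have hc : CPt (Subtype.val : S → E) := by simpa using h.2.1.tup 0 one_pos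
  obtain ⟨u, hu⟩ := ex_w H.hd hc ⟨y, hy⟩
  have t2 : Tendsto (fun s : ℝ => vol μ (range (ext (Subtype.val : S → E) (y + s • u)))) (𝓝[>] 0)
      (𝓝 (vol μ S)) := by
    have := ((vol_cont μ).comp (ext_cont (r := fun _ => (Subtype.val : S → E)) continuous_const
      (by fun_prop : Continuous fun s : ℝ => y + s • u))).tendsto 0
    simp only [comp] at this
    rw [range_ext _ (y + (0 : ℝ) • u), zero_smul, add_zero, Subtype.range_coe,
      insert_eq_of_mem hy] at this
    exact this.mono_left nhdsWithin_le_nhds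
  obtain ⟨s, a1, a2⟩ := (hu.and (t2.eventually (Iio_mem_nhds hlt))).exists
  set w := y + s • u
  have a3 : CPt (ext (Subtype.val : S → E) w) := a1
  have a4 := a3.cp
  rw [range_ext, Subtype.range_coe] at a2 a4
  have a5 : w ∉ S := by
    intro hw
    obtain ⟨f, hf⟩ := a3 none
    exact lt_irrefl _ (hf (some ⟨w, hw⟩) (by simp))
  have a6 := vol_lt μ (h.1.insert w) (subset_insert w S) h.2.2 (mem_insert _ _) (a4.notMem a5)
  have a7 : vol μ (insert w S) ∈ JJ I := ⟨_, h1, b, hb, a6, a2⟩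
  exact ⟨_, ⟨h.1.insert w, a4, h.2.2.mono (subset_insert _ _)⟩, a7,
    ins h.1 h.2.2 a4 h1 (JJ_sub H.hI a7)⟩

lemma poly {P : Set E} (h : IsPolytope P) : ∃ S, G0 S ∧ P = convexHull ℝ S := by
  obtain ⟨⟨S, hS, rfl⟩, h2⟩ := h
  have h3 : ((convexHull ℝ S).extremePoints ℝ).Finite := hS.subset extremePoints_convexHull_subset
  have h4 := closure_convexHull_extremePoints (hS.isCompact_convexHull ℝ) (convex_convexHull ℝ S)
  rw [(h3.isCompact_convexHull ℝ).isClosed.closure_eq] at h4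
  refine ⟨_, ⟨h3, CP_of h3 fun a ha h5 => ?_, by rw [FD_iff, h4, h2]⟩, h4.symm⟩
  exact ((convex_convexHull ℝ S).mem_extremePoints_iff_mem_sdiff_convexHull_sdiff.1 ha).2
    (convexHull_mono (sdiff_subset_sdiff_left extremePoints_subset) h5)

theorem conn (H : Hyp E I) (hm : ¬ ∃ M, IsGreatest I M) {P Q : Set E} (hP : Node μ I P)
    (hQ : Node μ I Q) : ReflTransGen (Move μ I) P Q := by
  obtain ⟨S, hS, rfl⟩ := poly hP.1
  obtain ⟨T, hT, rfl⟩ := poly hQ.1
  obtain ⟨S', a1, a2, a3⟩ := push H hm hS hP.2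
  obtain ⟨T', b1, b2, b3⟩ := push H hm hT hQ.2
  exact (a3.trans ((k_all H a1 b1 a2 b2).trans b3.symm)).1

theorem disc (H : Hyp E I) {M : ℝ} (hM : IsGreatest I M) :
    ∃ P Q : Set E, Node μ I P ∧ Node μ I Q ∧ ¬ ReflTransGen (Move μ I) P Q := by
  obtain ⟨m, hm, hJ⟩ := H.hm
  have hmM : m < M := by
    obtain ⟨-, -, b, hb, -, h⟩ := hJ
    exact h.trans_le (hM.2 hb)
  obtain ⟨B0, -, h1, h2⟩ := exists_affineIndependent ℝ E (univ : Set E)
  have f0 : B0.Finite := finite_set_of_fin_dim_affineIndependent ℝ h2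
  have hF : FD B0 := by rw [FD_iff, affineSpan_convexHull, h1]; simp
  have hn : ∀ a ∈ B0, a ∉ affineSpan ℝ (B0 \ {a}) := fun a ha => by
    have := h2.notMem_affineSpan_sdiff ⟨a, ha⟩ univ
    have e : B0 \ {a} = Subtype.val '' ((univ : Set B0) \ {⟨a, ha⟩}) := by
      ext x
      simp only [Set.mem_sdiff, mem_singleton_iff, mem_image, mem_univ, true_and, Subtype.exists,
        Subtype.mk.injEq, exists_and_right, exists_eq_right, exists_prop]
    rw [e]; exact this
  have g0 : G0 B0 := ⟨f0, CP_of f0 fun a ha h => hn a ha (convexHull_subset_affineSpan _ h), hF⟩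
  obtain ⟨a, ha, e1⟩ := ex_sc (μ := μ) H.hd f0 hF (hm.trans hmM)
  obtain ⟨b, hb, e2⟩ := ex_sc (μ := μ) H.hd f0 hF hm
  have g1 : G0 (a • B0) := by simpa using g0.aff 0 ha
  have g2 : G0 (b • B0) := by simpa using g0.aff 0 hb
  refine ⟨_, _, node g1.1 g1.2.2 (e1 ▸ hM.1), node g2.1 g2.2.2 (e2 ▸ JJ_sub H.hI hJ), fun h => ?_⟩
  have key : ∀ Q, Move μ I (convexHull ℝ (a • B0)) Q → Q = convexHull ℝ (a • B0) := by
    rintro Q ⟨-, hQ, ⟨x, rfl, -⟩ | ⟨v, hv, rfl⟩⟩
    · by_cases hx : x ∈ convexHull ℝ (a • B0)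
      · rw [insert_eq_of_mem hx, (convex_convexHull ℝ _).convexHull_eq]
      · exfalso
        have h3 := hM.2 hQ.2
        rw [insert_eq, convexHull_convexHull_union_right, ← insert_eq] at h3
        have := vol_lt μ (g1.1.insert x) (subset_insert x _) g1.2.2 (mem_insert _ _) hx
        rw [e1] at this
        exact absurd h3 (not_le.2 this)
    · exfalso
      have h3 := hQ.1.2
      rw [g1.2.1.ext_eq] at h3 hv
      obtain ⟨v, hv, rfl⟩ := hv
      have h4 : FD (a • B0 \ {a • v}) := FD_iff.2 h3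
      have h5 := h4.aff 0 (inv_pos.2 ha)
      rw [zero_vadd, smul_set_sdiff₀ (inv_pos.2 ha).ne', smul_set_singleton, inv_smul_smul₀ ha.ne',
        inv_smul_smul₀ ha.ne', FD_iff, affineSpan_convexHull] at h5
      exact hn v hv (by rw [h5]; trivial)
  have h6 : ∀ Q, ReflTransGen (Move μ I) (convexHull ℝ (a • B0)) Q → Q = convexHull ℝ (a • B0) := by
    intro Q hQ
    induction hQ with
    | refl => rfl
    | tail _ h2 ih => exact key _ (ih ▸ h2)
  have h7 := h6 _ h
  have : vol μ (b • B0) = vol μ (a • B0) := by simp only [vol, h7]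
  linarith

theorem main (hd : 2 ≤ Module.finrank ℝ E) (h0 : I ⊆ Ioi 0) (hI : I.OrdConnected)
    (hn : I.Nontrivial) :
    (∀ P Q : Set E, Node μ I P → Node μ I Q → ReflTransGen (Move μ I) P Q) ↔
      ¬ ∃ M, IsGreatest I M := by
  have H : Hyp E I := by
    refine ⟨hd, hI, ?_⟩
    obtain ⟨a, ha, b, hb, hab⟩ := hn.exists_lt
    exact ⟨(a + b) / 2, by linarith [mem_Ioi.1 (h0 ha)], a, ha, b, hb, by linarith, by linarith⟩
  refine ⟨fun h ⟨M, hM⟩ => ?_, fun hm P Q => conn H hm⟩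
  obtain ⟨P, Q, h1, h2, h3⟩ := disc (μ := μ) H hM
  exact h3 (h P Q h1 h2)

end Pool.Agent.H.MP_208a82_co
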